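import Mathlib

/-!
# Deterministic and quantum communication complexity of AND-composed functions: definitions
-/

set_option autoImplicit false

namespace Pool.Agent.K1H75.AndQ

open Matrix ComplexOrder

/-! ### Deterministic protocols -/

/-- Deterministic two-party protocols with one-bit messages. At a node `alice a p q` Alice sends the
bit `a x` and the players go on with `p` if it is `false` and with `q` if it is `true`; `bob b p q`
likewise. At a leaf the players stop and both output its label. -/
inductive DProt (X Y : Type) : Type
  | leaf (z : Bool) : DProt X Y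
  | alice (a : X → Bool) (p q : DProt X Y) : DProt X Y
  | bob (b : Y → Bool) (p q : DProt X Y) : DProt X Y

/-- The output of a deterministic protocol. -/
def DProt.eval {X Y : Type} : DProt X Y → X → Y → Bool
  | .leaf z, _, _ => z
  | .alice a p q, x, y => if a x = true then q.eval x y else p.eval x y
  | .bob b p q, x, y => if b y = true then q.eval x y else p.eval x y

/-- The worst-case number of bits exchanged (the depth). -/
def DProt.cost {X Y : Type} : DProt X Y → ℕ
  | .leaf _ => 0
  | .alice _ p q => 1 + max p.cost q.cost
  | .bob _ p q => 1 + max p.cost q.cost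

/-- Deterministic communication complexity. -/
noncomputable def D {X Y : Type} (F : X → Y → Bool) : ℕ :=
  sInf {c | ∃ P : DProt X Y, P.cost = c ∧ ∀ x y, P.eval x y = F x y}

/-! ### Quantum protocols -/

/-- `QProt X Y α β`: two-party quantum protocols for players with inputs in `X` and `Y`, from a point
on at which Alice's register has the orthonormal basis `α` and Bob's has the orthonormal basis `β`
(so the joint system is `ℂ^α ⊗ ℂ^β`).

* `alice V rest`: Alice applies to her register the isometry `V x`, which depends on her input, from
  `ℂ^α` to `ℂ^α' ⊗ ℂ²`, keeps the part `ℂ^α'` and sends the qubit `ℂ²` to Bob; his register becomes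
  `ℂ² ⊗ ℂ^β`.
* `bob W rest`: the same with the roles exchanged.
* `done A B`: the communication is over. Alice measures her register with the two-outcome
  measurement (POVM) `A x false, A x true` and Bob measures his register with `B y false, B y true`;
  the outcomes are their outputs. -/
inductive QProt (X Y : Type) : Type → Type → Type 1
  | done {α β : Type} [Fintype α] [DecidableEq α] [Fintype β] [DecidableEq β]
      (A : X → Bool → Matrix α α ℂ) (B : Y → Bool → Matrix β β ℂ)
      (hA : ∀ x, (A x false).PosSemidef ∧ (A x true).PosSemidef ∧ A x false + A x true = 1)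
      (hB : ∀ y, (B y false).PosSemidef ∧ (B y true).PosSemidef ∧ B y false + B y true = 1) :
      QProt X Y α β
  | alice {α α' β : Type} [Fintype α] [DecidableEq α] [Fintype α']
      (V : X → Matrix (α' × Bool) α ℂ) (hV : ∀ x, (V x)ᴴ * V x = 1)
      (rest : QProt X Y α' (Bool × β)) : QProt X Y α β
  | bob {α β β' : Type} [Fintype β] [DecidableEq β] [Fintype β']
      (W : Y → Matrix (β' × Bool) β ℂ) (hW : ∀ y, (W y)ᴴ * W y = 1)
      (rest : QProt X Y (Bool × α) β') : QProt X Y α β

/-- The number of qubits exchanged. -/
def QProt.cost {X Y : Type} : {α β : Type} → QProt X Y α β → ℕ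
  | _, _, @done _ _ _ _ _ _ _ _ _ _ _ _ => 0
  | _, _, @alice _ _ _ _ _ _ _ _ _ _ rest => 1 + rest.cost
  | _, _, @bob _ _ _ _ _ _ _ _ _ _ rest => 1 + rest.cost

/-- `P.prob x y M z`: the probability that both players output `z` when the protocol is run on the
inputs `x`, `y` from the joint state `∑ a b, M a b |a⟩|b⟩`. -/
noncomputable def QProt.prob {X Y : Type} : {α β : Type} → QProt X Y α β → X → Y →
    Matrix α β ℂ → Bool → ℝ
  | _, _, @done _ _ _ _ _ _ _ _ A B _ _, x, y, M, z =>
      (trace (Mᴴ * A x z * M * (B y z)ᵀ)).re
  | _, _, @alice _ _ _ _ _ _ _ _ V _ rest, x, y, M, z =>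
      rest.prob x y (fun a cb => (V x * M) (a, cb.1) cb.2) z
  | _, _, @bob _ _ _ _ _ _ _ _ W _ rest, x, y, M, z =>
      rest.prob x y (fun ca b => (M * (W y)ᵀ) ca.2 (b, ca.1)) z

/-- `P` (with the prior entangled state `φ`) computes `F` with error at most `1/3`: on every input
both players output `F x y` with probability at least `2/3`. -/
def QProt.Computes {X Y α β : Type} (P : QProt X Y α β) (φ : Matrix α β ℂ) (F : X → Y → Bool) :
    Prop :=
  ∀ x y, 2 / 3 ≤ P.prob x y φ (F x y)

/-- Bounded-error quantum communication complexity with prior entanglement: the least number of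
qubits exchanged by a quantum protocol that starts from an arbitrary bipartite unit vector `φ` (of
any finite dimension), which does not depend on the inputs, and computes `F` with error at most
`1/3`. -/
noncomputable def Qstar {X Y : Type} (F : X → Y → Bool) : ℕ :=
  sInf {c | ∃ (α β : Type) (_ : Fintype α) (_ : Fintype β) (φ : Matrix α β ℂ)
    (P : QProt X Y α β), ∑ a, ∑ b, ‖φ a b‖ ^ 2 = 1 ∧ P.cost = c ∧ P.Computes φ F}

/-! ### AND-composed functions -/

/-- `F(x, y) = f(x ∧ y)`. -/
def andComp {n : ℕ} (f : (Fin n → Bool) → Bool) : (Fin n → Bool) → (Fin n → Bool) → Bool :=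
  fun x y => f fun i => x i && y i

end Pool.Agent.K1H75.AndQ
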