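import Pool.Agent.K1H75.AndQ.Defs

/-! # Lower bound for deterministic protocols (fooling sets) -/

set_option autoImplicit false

namespace Pool.Agent.K1H75.AndQ

variable {X Y : Type}

/-- Fooling set bound for protocols: if `F (xs k) (ys k)` is true for all `k` and
`F (xs l) (ys k)` is false for `k < l`, then the number of the pairs is at most `2 ^ cost`. -/
theorem fooling (P : DProt X Y) (xs : ℕ → X) (ys : ℕ → Y) (I : Finset ℕ)
    (h1 : ∀ k ∈ I, P.eval (xs k) (ys k) = true)
    (h2 : ∀ k ∈ I, ∀ l ∈ I, k < l → P.eval (xs l) (ys k) = false) :
    I.card ≤ 2 ^ P.cost := by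
  induction P generalizing I with
  | leaf z =>
    simp only [DProt.cost, pow_zero]
    by_contra hcon
    push Not at hcon
    obtain ⟨a, ha, b, hb, hab⟩ := Finset.one_lt_card.1 hcon
    have h3 := h1 a ha
    simp only [DProt.eval] at h1 h2
    rcases lt_or_gt_of_ne hab with h | h
    · have := h2 a ha b hb h
      have := h1 a ha
      simp_all
    · have := h2 b hb a ha h
      have := h1 a ha
      simp_all
  | alice a p q ihp ihq =>
    have e : I.card = (I.filter fun k => a (xs k) = true).card
        + (I.filter fun k => ¬ a (xs k) = true).card :=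
      (Finset.card_filter_add_card_filter_not _).symm
    have hq := ihq (I.filter fun k => a (xs k) = true) (by
      intro k hk
      rw [Finset.mem_filter] at hk
      have := h1 k hk.1
      simp only [DProt.eval, hk.2, if_true] at this
      exact this) (by
      intro k hk l hl hkl
      rw [Finset.mem_filter] at hk hl
      have := h2 k hk.1 l hl.1 hkl
      simp only [DProt.eval, hl.2, if_true] at this
      exact this)
    have hp := ihp (I.filter fun k => ¬ a (xs k) = true) (by
      intro k hk
      rw [Finset.mem_filter] at hk
      have := h1 k hk.1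
      simp only [DProt.eval, if_neg hk.2] at this
      exact this) (by
      intro k hk l hl hkl
      rw [Finset.mem_filter] at hk hl
      have := h2 k hk.1 l hl.1 hkl
      simp only [DProt.eval, if_neg hl.2] at this
      exact this)
    have e1 : 2 ^ p.cost ≤ 2 ^ max p.cost q.cost := Nat.pow_le_pow_right (by norm_num) (le_max_left _ _)
    have e2 : 2 ^ q.cost ≤ 2 ^ max p.cost q.cost :=
      Nat.pow_le_pow_right (by norm_num) (le_max_right _ _)
    simp only [DProt.cost, pow_add, pow_one]
    omega
  | bob b p q ihp ihq =>
    have e : I.card = (I.filter fun k => b (ys k) = true).card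
        + (I.filter fun k => ¬ b (ys k) = true).card :=
      (Finset.card_filter_add_card_filter_not _).symm
    have hq := ihq (I.filter fun k => b (ys k) = true) (by
      intro k hk
      rw [Finset.mem_filter] at hk
      have := h1 k hk.1
      simp only [DProt.eval, hk.2, if_true] at this
      exact this) (by
      intro k hk l hl hkl
      rw [Finset.mem_filter] at hk hl
      have := h2 k hk.1 l hl.1 hkl
      simp only [DProt.eval, hk.2, if_true] at this
      exact this)
    have hp := ihp (I.filter fun k => ¬ b (ys k) = true) (by
      intro k hk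
      rw [Finset.mem_filter] at hk
      have := h1 k hk.1
      simp only [DProt.eval, if_neg hk.2] at this
      exact this) (by
      intro k hk l hl hkl
      rw [Finset.mem_filter] at hk hl
      have := h2 k hk.1 l hl.1 hkl
      simp only [DProt.eval, if_neg hk.2] at this
      exact this)
    have e1 : 2 ^ p.cost ≤ 2 ^ max p.cost q.cost := Nat.pow_le_pow_right (by norm_num) (le_max_left _ _)
    have e2 : 2 ^ q.cost ≤ 2 ^ max p.cost q.cost :=
      Nat.pow_le_pow_right (by norm_num) (le_max_right _ _)
    simp only [DProt.cost, pow_add, pow_one]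
    omega

/-- Every function on a finite set has a protocol. -/
theorem exists_prot [Finite X] (F : X → Y → Bool) :
    ∃ P : DProt X Y, ∀ x y, P.eval x y = F x y := by
  classical
  have := Fintype.ofFinite X
  have key : ∀ S : Finset X, ∃ P : DProt X Y, ∀ x ∈ S, ∀ y, P.eval x y = F x y := by
    intro S
    induction S using Finset.induction_on with
    | empty => exact ⟨.leaf false, by simp⟩
    | insert a S _ ih =>
      obtain ⟨P, hP⟩ := ih
      refine ⟨.alice (fun x => decide (x = a)) P (.bob (F a) (.leaf false) (.leaf true)), ?_⟩
      intro x hx y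
      by_cases h : x = a
      · subst h
        simp only [DProt.eval, decide_true, if_true]
        cases F x y <;> simp
      · simp only [DProt.eval, h, decide_false, Bool.false_eq_true, if_false]
        exact hP x (Finset.mem_of_mem_insert_of_ne hx h) y
  obtain ⟨P, hP⟩ := key Finset.univ
  exact ⟨P, fun x y => hP x (Finset.mem_univ x) y⟩

/-- A lower bound for all protocols is a lower bound for `D`. -/
theorem le_D [Finite X] (F : X → Y → Bool) (c : ℕ)
    (h : ∀ P : DProt X Y, (∀ x y, P.eval x y = F x y) → c ≤ P.cost) : c ≤ D F := by
  obtain ⟨P, hP⟩ := exists_prot F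
  have hne : {c | ∃ P : DProt X Y, P.cost = c ∧ ∀ x y, P.eval x y = F x y}.Nonempty :=
    ⟨P.cost, P, rfl, hP⟩
  obtain ⟨Q, hQ1, hQ2⟩ := Nat.sInf_mem hne
  have := h Q hQ2
  unfold D
  omega

end Pool.Agent.K1H75.AndQ
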