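import Pool.Agent.K1H75.AndQ.Sim

/-! # A public-coin protocol for `min i j mod 2` -/

set_option autoImplicit false

namespace Pool.Agent.K1H75.AndQ

variable {X Y : Type}

/-- Change of the output. -/
def tmap {O O' : Type} (f : O → O') : (l : List Bool) → Tr X Y O l → Tr X Y O' l
  | [], o => f o
  | true :: l, t => (t.1, fun b => tmap f l (t.2 b))
  | false :: l, t => (t.1, fun b => tmap f l (t.2 b))

theorem run_tmap {O O' : Type} (f : O → O') (l : List Bool) (t : Tr X Y O l) (x : X) (y : Y) :
    run l (tmap f l t) x y = f (run l t x y) := by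
  induction l with
  | nil => rfl
  | cons b l ih =>
    cases b with
    | true => exact ih _
    | false => exact ih _

/-- Alice sends a list of `q` bits. -/
def sendBits : (q : ℕ) → (X → List Bool) → Tr X Y (List Bool) (List.replicate q true)
  | 0, _ => ([] : List Bool)
  | q + 1, v => (fun x => (v x).headI, fun b =>
      tmap (fun L => b :: L) (List.replicate q true) (sendBits q fun x => (v x).tail))

theorem run_sendBits (q : ℕ) : ∀ (v : X → List Bool) (x : X) (y : Y), (v x).length = q →
    run (List.replicate q true) (sendBits q v) x y = v x := by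
  induction q with
  | zero =>
    intro v x y h
    rw [List.length_eq_zero_iff] at h
    rw [h]
    rfl
  | succ q ih =>
    intro v x y h
    change run (List.replicate q true) (tmap (fun L => (v x).headI :: L) (List.replicate q true)
      (sendBits q fun x => (v x).tail)) x y = v x
    rw [run_tmap, ih _ _ _ (by rw [List.length_tail, h]; rfl)]
    cases hv : v x with
    | nil => rw [hv] at h; simp at h
    | cons b L => rfl

/-- The schedule of one test. -/
def sch (q : ℕ) : List Bool := List.replicate q true ++ [false]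

/-- Bob sends one bit, which is the output. -/
def reply (f : Y → Bool) : Tr X Y Bool [false] := (f, fun b => (b : Bool))

/-- Alice sends `u x`, a list of `q` bits; Bob replies whether `g y` holds and `w y` is this list. -/
def test (q : ℕ) (u : X → List Bool) (w : Y → List Bool) (g : Bool) : Tr X Y Bool (sch q) :=
  bind (List.replicate q true) [false] (sendBits q u)
    fun L => reply fun y => g && decide (L = w y)

theorem run_test (q : ℕ) (u : X → List Bool) (w : Y → List Bool) (g : Bool) (x : X) (y : Y)
    (h : (u x).length = q) :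
    run (sch q) (test q u w g) x y = (g && decide (u x = w y)) := by
  refine (run_bind (List.replicate q true) [false] (sendBits q u)
    (fun L => reply fun y => g && decide (L = w y)) x y).trans ?_
  rw [run_sendBits _ _ _ _ h]
  rfl

/-- The schedule of `t` tests. -/
def schs (q : ℕ) : ℕ → List Bool
  | 0 => []
  | t + 1 => sch q ++ schs q t

theorem length_schs (q t : ℕ) : (schs q t).length = t * (q + 1) := by
  induction t with
  | zero => simp [schs]
  | succ t ih =>
    rw [schs, List.length_append, ih, sch, List.length_append, List.length_replicate]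
    simp only [List.length_singleton]
    ring

/-- Binary search for a number `K ≥ lo` with `E K` and `¬ E (K + 1)`, where the test for `E k`
compares `u k x` and `w k y`. -/
def search (q M : ℕ) (u : ℕ → X → List Bool) (w : ℕ → Y → List Bool) : (t : ℕ) → (lo : ℕ) →
    Tr X Y ℕ (schs q t)
  | 0, lo => lo
  | t + 1, lo => bind (sch q) (schs q t) (test q (u (lo + 2 ^ t)) (w (lo + 2 ^ t))
      (decide (lo + 2 ^ t ≤ M)))
      fun b => search q M u w t (if b = true then lo + 2 ^ t else lo)

theorem run_search (q M : ℕ) (u : ℕ → X → List Bool) (w : ℕ → Y → List Bool) (x : X) (y : Y)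
    (hu : ∀ k, (u k x).length = q) (t : ℕ) : ∀ lo : ℕ, (lo ≤ M ∧ u lo x = w lo y) →
    ¬ (lo + 2 ^ t ≤ M ∧ u (lo + 2 ^ t) x = w (lo + 2 ^ t) y) →
    (run (schs q t) (search q M u w t lo) x y ≤ M ∧
      u (run (schs q t) (search q M u w t lo) x y) x
        = w (run (schs q t) (search q M u w t lo) x y) y) ∧
    ¬ (run (schs q t) (search q M u w t lo) x y + 1 ≤ M ∧
      u (run (schs q t) (search q M u w t lo) x y + 1) x
        = w (run (schs q t) (search q M u w t lo) x y + 1) y) := by
  induction t with
  | zero =>
    intro lo h1 h2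
    exact ⟨h1, h2⟩
  | succ t ih =>
    intro lo h1 h2
    have e : run (schs q (t + 1)) (search q M u w (t + 1) lo) x y
        = run (schs q t) (search q M u w t (if (decide (lo + 2 ^ t ≤ M) &&
          decide (u (lo + 2 ^ t) x = w (lo + 2 ^ t) y)) = true then lo + 2 ^ t else lo)) x y := by
      change run (sch q ++ schs q t) (bind (sch q) (schs q t) (test q (u (lo + 2 ^ t))
        (w (lo + 2 ^ t)) (decide (lo + 2 ^ t ≤ M)))
        fun b => search q M u w t (if b = true then lo + 2 ^ t else lo)) x y = _
      rw [run_bind, run_test _ _ _ _ _ _ (hu _)]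
    rw [e]
    by_cases h3 : lo + 2 ^ t ≤ M ∧ u (lo + 2 ^ t) x = w (lo + 2 ^ t) y
    · rw [if_pos (by simpa using h3)]
      refine ih _ h3 ?_
      rw [show lo + 2 ^ t + 2 ^ t = lo + 2 ^ (t + 1) by ring]
      exact h2
    · rw [if_neg (by simpa using h3)]
      exact ih _ h1 h3

/-- The last three bits of the protocol. -/
def last3 (M : ℕ) (i : X → ℕ) (j : Y → ℕ) (K : ℕ) : Tr X Y Bool [true, true, false] :=
  (fun x => decide (i x / 2 ^ (M - (K + 1)) % 2 = 1), fun b =>
    ((fun x => decide (i x % 2 = 1), fun c =>
      reply fun y => if K + 1 ≤ M ∧ b = true then decide (j y % 2 = 1) else c) :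
      Tr X Y Bool [true, false]))

/-- The full protocol for the parity of the minimum of `i x` and `j y`: a binary search followed by
three bits. -/
def gt (q M s : ℕ) (u : ℕ → X → List Bool) (w : ℕ → Y → List Bool) (i : X → ℕ) (j : Y → ℕ) :
    Tr X Y Bool (schs q s ++ [true, true, false]) :=
  bind (schs q s) [true, true, false] (search q M u w s 0) (last3 M i j)

theorem run_gt (q M s : ℕ) (u : ℕ → X → List Bool) (w : ℕ → Y → List Bool) (i : X → ℕ) (j : Y → ℕ)
    (x : X) (y : Y) (hu : ∀ k, (u k x).length = q) (hs : M < 2 ^ s)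
    (hi : i x < 2 ^ M) (hj : j y < 2 ^ M)
    (huw : ∀ k ≤ M, u k x = w k y ↔ i x / 2 ^ (M - k) = j y / 2 ^ (M - k)) :
    run _ (gt q M s u w i j) x y = decide (min (i x) (j y) % 2 = 1) := by
  have h0 := run_search q M u w x y hu s 0
    ⟨Nat.zero_le _, (huw 0 (Nat.zero_le _)).2 (by
      rw [Nat.sub_zero, Nat.div_eq_of_lt hi, Nat.div_eq_of_lt hj])⟩ (by
      rintro ⟨h, -⟩
      omega)
  have e : run _ (gt q M s u w i j) x y =
      if run (schs q s) (search q M u w s 0) x y + 1 ≤ M ∧
        decide (i x / 2 ^ (M - (run (schs q s) (search q M u w s 0) x y + 1)) % 2 = 1) = true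
      then decide (j y % 2 = 1) else decide (i x % 2 = 1) := by
    exact run_bind (schs q s) [true, true, false] (search q M u w s 0) (last3 M i j) x y
  rw [e]
  generalize run (schs q s) (search q M u w s 0) x y = K at h0
  obtain ⟨⟨h1, h2⟩, h3⟩ := h0
  rw [huw K h1] at h2
  by_cases hK : K + 1 ≤ M
  · have h4 : ¬ i x / 2 ^ (M - (K + 1)) = j y / 2 ^ (M - (K + 1)) := fun h =>
      h3 ⟨hK, (huw _ hK).2 h⟩
    have e1 : M - K = (M - (K + 1)) + 1 := by omega
    rw [e1, pow_succ, ← Nat.div_div_eq_div_mul, ← Nat.div_div_eq_div_mul] at h2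
    have hpos : 0 < 2 ^ (M - (K + 1)) := by positivity
    by_cases hb : i x / 2 ^ (M - (K + 1)) % 2 = 1
    · rw [if_pos ⟨hK, by simpa using hb⟩]
      have h5 : j y / 2 ^ (M - (K + 1)) < i x / 2 ^ (M - (K + 1)) := by omega
      have h6 : j y < i x := by
        by_contra hc
        push Not at hc
        exact absurd (Nat.div_le_div_right (c := 2 ^ (M - (K + 1))) hc) (by omega)
      rw [min_eq_right h6.le]
    · rw [if_neg (by rintro ⟨-, h⟩; exact hb (by simpa using h))]
      have h5 : i x / 2 ^ (M - (K + 1)) < j y / 2 ^ (M - (K + 1)) := by omega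
      have h6 : i x < j y := by
        by_contra hc
        push Not at hc
        exact absurd (Nat.div_le_div_right (c := 2 ^ (M - (K + 1))) hc) (by omega)
      rw [min_eq_left h6.le]
  · rw [if_neg (by rintro ⟨h, -⟩; exact hK h)]
    have e1 : M - K = 0 := by omega
    rw [e1, pow_zero, Nat.div_one, Nat.div_one] at h2
    rw [← h2, min_self]

/-! ### Random hash functions -/

theorem card_eq_at {I V : Type} [Fintype I] [DecidableEq I] [Fintype V] [DecidableEq V]
    (a b : I) (hab : a ≠ b) :
    (Finset.univ.filter fun r : I → V => r a = r b).card * Fintype.card V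
      ≤ Fintype.card (I → V) := by
  classical
  have h : ((Finset.univ.filter fun r : I → V => r a = r b) ×ˢ (Finset.univ : Finset V)).card
      ≤ (Finset.univ : Finset (I → V)).card := by
    refine Finset.card_le_card_of_injOn (fun p => Function.update p.1 a p.2) (fun _ _ => by simp) ?_
    rintro ⟨r, v⟩ hr ⟨r', v'⟩ hr' h
    simp only [Finset.coe_product, Set.mem_prod, Finset.mem_coe, Finset.mem_filter,
      Finset.mem_univ, true_and, and_true] at hr hr'
    simp only at h
    have h1 : v = v' := by
      have := congrFun h a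
      simpa using this
    have h2 : ∀ c, c ≠ a → r c = r' c := by
      intro c hc
      have := congrFun h c
      simpa [hc] using this
    have h3 : r = r' := by
      funext c
      by_cases hc : c = a
      · rw [hc, hr, hr', h2 b (Ne.symm hab)]
      · exact h2 c hc
    rw [h1, h3]
  rwa [Finset.card_product, Finset.card_univ, Finset.card_univ] at h

/-- For `3 (M + 1) ≤ 2 ^ q` at least two thirds of the hash functions separate all pairs
`(a k, b k)`, `k ≤ M`, with `a k ≠ b k`. -/
theorem good_hash {I : Type} [Fintype I] [DecidableEq I] (q M : ℕ) (hq : 3 * (M + 1) ≤ 2 ^ q)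
    (a b : ℕ → I) :
    2 * Fintype.card (I → Fin q → Bool) ≤
      3 * (Finset.univ.filter fun r : I → Fin q → Bool => ∀ k ≤ M, r (a k) = r (b k) ↔ a k = b k).card := by
  classical
  set R := I → Fin q → Bool
  set G := Finset.univ.filter fun r : R => ∀ k ≤ M, r (a k) = r (b k) ↔ a k = b k
  set S := (Finset.range (M + 1)).filter fun k => a k ≠ b k
  set B := S.biUnion fun k => Finset.univ.filter fun r : R => r (a k) = r (b k)
  have h1 : (Finset.univ : Finset R) ⊆ G ∪ B := by
    intro r _
    by_cases hr : r ∈ G
    · exact Finset.mem_union_left _ hr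
    · refine Finset.mem_union_right _ ?_
      simp only [G, Finset.mem_filter, Finset.mem_univ, true_and, not_forall] at hr
      obtain ⟨k, hk, hr⟩ := hr
      have h2 : a k ≠ b k ∧ r (a k) = r (b k) := by
        by_cases h : a k = b k
        · exact absurd (by simp [h]) hr
        · refine ⟨h, ?_⟩
          by_contra h3
          exact hr (by simp [h, h3])
      refine Finset.mem_biUnion.2 ⟨k, ?_, ?_⟩
      · simp only [S, Finset.mem_filter, Finset.mem_range]
        exact ⟨by omega, h2.1⟩
      · simpa using h2.2
  have h2 : Fintype.card R ≤ G.card + B.card := by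
    rw [← Finset.card_univ]
    exact (Finset.card_le_card h1).trans (Finset.card_union_le _ _)
  have hV : Fintype.card (Fin q → Bool) = 2 ^ q := by
    simp
  have h3 : B.card * 2 ^ q ≤ (M + 1) * Fintype.card R := by
    calc B.card * 2 ^ q ≤ (∑ k ∈ S, (Finset.univ.filter fun r : R => r (a k) = r (b k)).card) * 2 ^ q :=
          Nat.mul_le_mul_right _ Finset.card_biUnion_le
      _ = ∑ k ∈ S, (Finset.univ.filter fun r : R => r (a k) = r (b k)).card * 2 ^ q := by
          rw [Finset.sum_mul]
      _ ≤ ∑ _k ∈ S, Fintype.card R := by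
          refine Finset.sum_le_sum fun k hk => ?_
          simp only [S, Finset.mem_filter] at hk
          have := card_eq_at (V := Fin q → Bool) (a k) (b k) hk.2
          rwa [hV] at this
      _ = S.card * Fintype.card R := by rw [Finset.sum_const, smul_eq_mul]
      _ ≤ (M + 1) * Fintype.card R := by
          refine Nat.mul_le_mul_right _ ?_
          calc S.card ≤ (Finset.range (M + 1)).card := Finset.card_filter_le _ _
            _ = M + 1 := Finset.card_range _
  have h4 : 3 * B.card ≤ Fintype.card R := by
    have hpos : 0 < M + 1 := by omega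
    have : (M + 1) * (3 * B.card) ≤ (M + 1) * Fintype.card R :=
      calc (M + 1) * (3 * B.card) = B.card * (3 * (M + 1)) := by ring
        _ ≤ B.card * 2 ^ q := Nat.mul_le_mul_left _ hq
        _ ≤ _ := h3
    exact Nat.le_of_mul_le_mul_left this hpos
  change 2 * Fintype.card R ≤ 3 * G.card
  omega

/-- Upper bound: if `F x y` is the parity of `min (i x) (j y)`, where these numbers are less than
`2 ^ M`, then `Qstar F ≤ s (q + 1) + 3` whenever `2 ^ s > M` and `2 ^ q ≥ 3 (M + 1)`. -/
theorem Qstar_min_le (F : X → Y → Bool) (i : X → ℕ) (j : Y → ℕ) (M q s : ℕ) (hs : M < 2 ^ s)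
    (hq : 3 * (M + 1) ≤ 2 ^ q) (hi : ∀ x, i x < 2 ^ M) (hj : ∀ y, j y < 2 ^ M)
    (hF : ∀ x y, F x y = decide (min (i x) (j y) % 2 = 1)) :
    Qstar F ≤ s * (q + 1) + 3 := by
  classical
  have hN : 0 < 2 ^ M := by positivity
  let idx : ℕ → Fin (2 ^ M) := fun v => ⟨v % 2 ^ M, Nat.mod_lt _ hN⟩
  have hidx : ∀ v v', v < 2 ^ M → v' < 2 ^ M → (idx v = idx v' ↔ v = v') := by
    intro v v' hv hv'
    simp only [idx, Fin.mk.injEq, Nat.mod_eq_of_lt hv, Nat.mod_eq_of_lt hv']
  have hlen : (schs q s ++ [true, true, false]).length = s * (q + 1) + 3 := by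
    rw [List.length_append, length_schs]
    rfl
  rw [← hlen]
  refine Qstar_le F _ (Fin (2 ^ M) → Fin q → Bool)
    (fun r => gt q M s (fun k x => List.ofFn (r (idx (i x / 2 ^ (M - k)))))
      (fun k y => List.ofFn (r (idx (j y / 2 ^ (M - k))))) i j) ?_
  intro x y
  refine (good_hash q M hq (fun k => idx (i x / 2 ^ (M - k)))
    (fun k => idx (j y / 2 ^ (M - k)))).trans ?_
  refine Nat.mul_le_mul_left _ (Finset.card_le_card ?_)
  intro r hr
  simp only [Finset.mem_filter, Finset.mem_univ, true_and] at hr ⊢
  rw [run_gt q M s _ _ i j x y (fun k => List.length_ofFn) hs (hi x) (hj y), hF]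
  intro k hk
  rw [List.ofFn_injective.eq_iff, hr k hk]
  exact hidx _ _ ((Nat.div_le_self _ _).trans_lt (hi x)) ((Nat.div_le_self _ _).trans_lt (hj y))

end Pool.Agent.K1H75.AndQ
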