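import Pool.Agent.K1H75.AndQ.Det
import Pool.Agent.K1H75.AndQ.Gt

/-! # Separation for the parity of the number of leading ones -/

set_option autoImplicit false

namespace Pool.Agent.K1H75.AndQ

/-- The number of leading ones. -/
def lead {n : ℕ} (z : Fin n → Bool) : ℕ :=
  (Finset.univ.filter fun k : Fin n => ∀ i, i ≤ k → z i = true).card

/-- The parity of the number of leading ones. -/
def leadPar (n : ℕ) (z : Fin n → Bool) : Bool := decide (lead z % 2 = 1)

theorem lead_le {n : ℕ} (z : Fin n → Bool) : lead z ≤ n := by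
  unfold lead
  exact (Finset.card_filter_le _ _).trans (by simp)

theorem lead_iff {n : ℕ} (z : Fin n → Bool) (k : Fin n) :
    (∀ i, i ≤ k → z i = true) ↔ k.val < lead z := by
  constructor
  · intro h
    have h1 : (Finset.univ.filter fun j : Fin n => j ≤ k) ⊆
        (Finset.univ.filter fun k : Fin n => ∀ i, i ≤ k → z i = true) := by
      intro j hj
      simp only [Finset.mem_filter, Finset.mem_univ, true_and] at hj ⊢
      exact fun i hi => h i (hi.trans hj)
    have h2 := Finset.card_le_card h1
    have h3 : (Finset.univ.filter fun j : Fin n => j ≤ k).card = k.val + 1 := by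
      have : (Finset.univ.filter fun j : Fin n => j ≤ k) = Finset.Iic k := by
        ext j; simp
      rw [this, Fin.card_Iic]
    unfold lead
    omega
  · intro h
    by_contra hc
    have h1 : (Finset.univ.filter fun k : Fin n => ∀ i, i ≤ k → z i = true) ⊆
        (Finset.univ.filter fun j : Fin n => j < k) := by
      intro j hj
      simp only [Finset.mem_filter, Finset.mem_univ, true_and] at hj ⊢
      by_contra hjk
      exact hc fun i hi => hj i (hi.trans (not_lt.1 hjk))
    have h2 := Finset.card_le_card h1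
    have h3 : (Finset.univ.filter fun j : Fin n => j < k).card = k.val := by
      have : (Finset.univ.filter fun j : Fin n => j < k) = Finset.Iio k := by
        ext j; simp
      rw [this, Fin.card_Iio]
    unfold lead at h
    omega

theorem lead_and {n : ℕ} (x y : Fin n → Bool) :
    lead (fun i => x i && y i) = min (lead x) (lead y) := by
  have h : ∀ k : Fin n, k.val < lead (fun i => x i && y i) ↔ k.val < lead x ∧ k.val < lead y := by
    intro k
    rw [← lead_iff, ← lead_iff, ← lead_iff]
    constructor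
    · intro h
      exact ⟨fun i hi => by have := h i hi; simp_all, fun i hi => by have := h i hi; simp_all⟩
    · rintro ⟨h1, h2⟩ i hi
      simp [h1 i hi, h2 i hi]
  have l1 := lead_le (fun i => x i && y i)
  have l2 := lead_le x
  have l3 := lead_le y
  rcases lt_trichotomy (lead (fun i => x i && y i)) (min (lead x) (lead y)) with h1 | h1 | h1
  · exfalso
    have h2 := (h ⟨lead (fun i => x i && y i), by omega⟩).2 (by simp only; omega)
    simp only at h2
    omega
  · exact h1
  · exfalso
    have h2 := (h ⟨min (lead x) (lead y), by omega⟩).1 (by simpa using h1)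
    simp only at h2
    omega

/-- The word with exactly `k` leading ones. -/
def ones (n k : ℕ) : Fin n → Bool := fun i => decide (i.val < k)

theorem lead_ones {n k : ℕ} (h : k ≤ n) : lead (ones n k) = k := by
  have h1 : (Finset.univ.filter fun j : Fin n => ∀ i, i ≤ j → ones n k i = true)
      = Finset.univ.filter fun j : Fin n => j.val < k := by
    ext j
    simp only [Finset.mem_filter, Finset.mem_univ, true_and, ones, decide_eq_true_eq]
    exact ⟨fun h => h j le_rfl, fun h i hi => lt_of_le_of_lt hi h⟩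
  unfold lead
  rw [h1, Fin.card_filter_val_lt, min_eq_right h]

theorem andComp_leadPar {n : ℕ} (x y : Fin n → Bool) :
    andComp (leadPar n) x y = decide (min (lead x) (lead y) % 2 = 1) := by
  unfold andComp leadPar
  rw [lead_and]

/-- Lower bound for deterministic protocols. -/
theorem D_ge (m : ℕ) : m ≤ D (andComp (leadPar (2 ^ (m + 1)))) := by
  refine le_D _ _ fun P hP => ?_
  have hk : ∀ k ∈ Finset.range (2 ^ m), 2 * k + 2 ≤ 2 ^ (m + 1) := by
    intro k hk
    rw [Finset.mem_range] at hk
    rw [pow_succ]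
    omega
  have h := fooling P (fun k => ones (2 ^ (m + 1)) (2 * k + 1)) (fun k => ones (2 ^ (m + 1)) (2 * k + 2))
    (Finset.range (2 ^ m)) (by
      intro k hk'
      have := hk k hk'
      rw [hP, andComp_leadPar, lead_ones (by omega), lead_ones (by omega),
        min_eq_left (by omega)]
      simp only [decide_eq_true_eq]
      omega) (by
      intro k hk' l hl hkl
      have h1 := hk k hk'
      have h2 := hk l hl
      rw [hP, andComp_leadPar, lead_ones (by omega), lead_ones (by omega),
        min_eq_right (by omega)]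
      simp only [decide_eq_false_iff_not]
      omega)
  rw [Finset.card_range] at h
  exact (Nat.pow_le_pow_iff_right (by norm_num)).1 h

/-- Upper bound for quantum protocols with entanglement. -/
theorem Q_le (a : ℕ) :
    Qstar (andComp (leadPar (2 ^ (2 ^ a + 1)))) ≤ (a + 2) * (a + 5) + 3 := by
  have h := Qstar_min_le (andComp (leadPar (2 ^ (2 ^ a + 1)))) lead lead (2 ^ a + 2) (a + 4) (a + 2)
    (by
      have : 0 < 2 ^ a := by positivity
      rw [pow_add]
      omega)
    (by
      have : 0 < 2 ^ a := by positivity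
      rw [pow_add]
      omega)
    (fun x => (lead_le x).trans_lt (by rw [pow_succ 2 (2 ^ a + 1)]; have : 0 < 2 ^ (2 ^ a + 1) := by positivity
                                       omega))
    (fun x => (lead_le x).trans_lt (by rw [pow_succ 2 (2 ^ a + 1)]; have : 0 < 2 ^ (2 ^ a + 1) := by positivity
                                       omega))
    andComp_leadPar
  exact h

/-- A polynomial is at most `C (x + 1) ^ d` on the nonnegative numbers. -/
theorem poly_le (P : Polynomial ℝ) (x : ℝ) (hx : 0 ≤ x) :
    P.eval x ≤ (∑ i ∈ Finset.range (P.natDegree + 1), |P.coeff i|) * (x + 1) ^ P.natDegree := by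
  rw [Polynomial.eval_eq_sum_range, Finset.sum_mul]
  refine Finset.sum_le_sum fun i hi => ?_
  rw [Finset.mem_range] at hi
  calc P.coeff i * x ^ i ≤ |P.coeff i| * x ^ i :=
        mul_le_mul_of_nonneg_right (le_abs_self _) (pow_nonneg hx _)
    _ ≤ |P.coeff i| * (x + 1) ^ P.natDegree := by
        refine mul_le_mul_of_nonneg_left ?_ (abs_nonneg _)
        calc x ^ i ≤ (x + 1) ^ i := pow_le_pow_left₀ hx (by linarith) _
          _ ≤ (x + 1) ^ P.natDegree := pow_le_pow_right₀ (by linarith) (by omega)

/-- Exponentials beat polynomials. -/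
theorem exists_large (C : ℝ) (d : ℕ) (hC : 0 ≤ C) :
    ∃ a : ℕ, C * ((((a + 2) * (a + 5) + 3 : ℕ) : ℝ) + 1) ^ d < (2 : ℝ) ^ a := by
  have h1 : Filter.Tendsto (fun a : ℕ => ((a : ℝ) ^ (2 * d)) / 2 ^ a) Filter.atTop (nhds 0) :=
    tendsto_pow_const_div_const_pow_of_one_lt (2 * d) (by norm_num)
  have h2 : Filter.Tendsto (fun a : ℕ => C * 22 ^ d * (((a : ℝ) ^ (2 * d)) / 2 ^ a)) Filter.atTop
      (nhds (C * 22 ^ d * 0)) := h1.const_mul _
  rw [mul_zero] at h2
  have h3 := (h2.eventually (gt_mem_nhds (show (0 : ℝ) < 1 by norm_num))).and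
    (Filter.eventually_ge_atTop 1)
  obtain ⟨a, ha, ha1⟩ := h3.exists
  refine ⟨a, ?_⟩
  have h4 : (0 : ℝ) < 2 ^ a := by positivity
  have ha1' : (1 : ℝ) ≤ a := by exact_mod_cast ha1
  have h5 : ((((a + 2) * (a + 5) + 3 : ℕ) : ℝ) + 1) ≤ 22 * (a : ℝ) ^ 2 := by
    push_cast
    nlinarith
  calc C * ((((a + 2) * (a + 5) + 3 : ℕ) : ℝ) + 1) ^ d ≤ C * (22 * (a : ℝ) ^ 2) ^ d := by
        refine mul_le_mul_of_nonneg_left (pow_le_pow_left₀ (by positivity) h5 _) hC
    _ = C * 22 ^ d * (((a : ℝ) ^ (2 * d)) / 2 ^ a) * 2 ^ a := by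
        rw [mul_pow, ← pow_mul]
        field_simp
    _ < 1 * 2 ^ a := by
        exact mul_lt_mul_of_pos_right ha h4
    _ = 2 ^ a := one_mul _

/-- For every polynomial `P` there is an AND-composed function with `D > P(Qstar)`. -/
theorem separation (P : Polynomial ℝ) :
    ∃ n : ℕ, 1 ≤ n ∧ ∃ f : (Fin n → Bool) → Bool,
      P.eval (Qstar (andComp f) : ℝ) < (D (andComp f) : ℝ) := by
  obtain ⟨a, ha⟩ := exists_large (∑ i ∈ Finset.range (P.natDegree + 1), |P.coeff i|) P.natDegree
    (Finset.sum_nonneg fun _ _ => abs_nonneg _)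
  refine ⟨2 ^ (2 ^ a + 1), Nat.one_le_two_pow, leadPar _, ?_⟩
  have h1 := D_ge (2 ^ a)
  have h2 := Q_le a
  have h1' : (2 : ℝ) ^ a ≤ (D (andComp (leadPar (2 ^ (2 ^ a + 1)))) : ℝ) := by exact_mod_cast h1
  have h2' : ((Qstar (andComp (leadPar (2 ^ (2 ^ a + 1)))) : ℕ) : ℝ) ≤
      (((a + 2) * (a + 5) + 3 : ℕ) : ℝ) := by exact_mod_cast h2
  refine lt_of_lt_of_le ?_ h1'
  refine lt_of_le_of_lt (poly_le P _ (Nat.cast_nonneg _)) (lt_of_le_of_lt ?_ ha)
  refine mul_le_mul_of_nonneg_left ?_ (Finset.sum_nonneg fun _ _ => abs_nonneg _)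
  exact pow_le_pow_left₀ (by positivity) (by linarith) _

end Pool.Agent.K1H75.AndQ
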