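import Pool.Agent.K1H75.AndQ.Gt

/-! # Sanity check: the infimum in the definition of `Qstar` is attained -/

set_option autoImplicit false

namespace Pool.Agent.K1H75.AndQ

variable {X Y : Type}

theorem exists_tr [Finite X] (F : X → Y → Bool) :
    ∃ (l : List Bool) (T : Tr X Y Bool l), ∀ x y, run l T x y = F x y := by
  classical
  have := Fintype.ofFinite X
  have key : ∀ S : Finset X, ∃ (l : List Bool) (T : Tr X Y Bool l),
      ∀ x ∈ S, ∀ y, run l T x y = F x y := by
    intro S
    induction S using Finset.induction_on with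
    | empty => exact ⟨[], (false : Bool), by simp⟩
    | insert a S _ ih =>
      obtain ⟨l, T, hT⟩ := ih
      let T2 : Bool → Tr X Y Bool (false :: l) := fun b =>
        (F a, fun c => if b = true then tmap (fun _ : Bool => c) l T else T)
      let T1 : Tr X Y Bool (true :: false :: l) := (fun x => decide (x = a), T2)
      refine ⟨true :: false :: l, T1, ?_⟩
      intro x hx y
      change run l (if decide (x = a) = true then tmap (fun _ : Bool => F a y) l T else T) x y = F x y
      by_cases h : x = a
      · rw [if_pos (by simpa using h), run_tmap, h]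
      · rw [if_neg (by simpa using h)]
        exact hT x (Finset.mem_of_mem_insert_of_ne hx h) y
  obtain ⟨l, T, hT⟩ := key Finset.univ
  exact ⟨l, T, fun x y => hT x (Finset.mem_univ x) y⟩

/-- The infimum in the definition of `Qstar` is attained. -/
theorem Qstar_attained [Finite X] (F : X → Y → Bool) :
    ∃ (α β : Type) (_ : Fintype α) (_ : Fintype β) (φ : Matrix α β ℂ)
    (P : QProt X Y α β), ∑ a, ∑ b, ‖φ a b‖ ^ 2 = 1 ∧ P.cost = Qstar F ∧ P.Computes φ F := by
  have hne : {c | ∃ (α β : Type) (_ : Fintype α) (_ : Fintype β) (φ : Matrix α β ℂ)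
    (P : QProt X Y α β), ∑ a, ∑ b, ‖φ a b‖ ^ 2 = 1 ∧ P.cost = c ∧ P.Computes φ F}.Nonempty := by
    obtain ⟨l, T, hT⟩ := exists_tr F
    refine ⟨l.length, Unit, Unit, inferInstance, inferInstance, Matrix.diagonal fun _ => 1,
      sim l Unit inferInstance inferInstance fun _ => T, by simp, sim_cost _ _ _ _ _, ?_⟩
    intro x y
    rw [sim_prob]
    simp only [hT, if_true, norm_one, one_pow, Finset.univ_unique, Finset.sum_const,
      Finset.card_singleton, one_smul]
    norm_num
  exact Nat.sInf_mem hne

end Pool.Agent.K1H75.AndQ
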