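import Pool.Agent.K1H75.AndQ.Defs

/-! # Simulation of classical public-coin protocols by quantum protocols with entanglement -/

set_option autoImplicit false

namespace Pool.Agent.K1H75.AndQ

open Matrix ComplexOrder

/-- Classical protocols with output in `O` and with a fixed schedule of speakers (`true`: Alice). -/
def Tr (X Y O : Type) : List Bool → Type
  | [] => O
  | true :: l => (X → Bool) × (Bool → Tr X Y O l)
  | false :: l => (Y → Bool) × (Bool → Tr X Y O l)

/-- The output. -/
def run {X Y O : Type} : (l : List Bool) → Tr X Y O l → X → Y → O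
  | [], o, _, _ => o
  | true :: l, t, x, y => run l (t.2 (t.1 x)) x y
  | false :: l, t, x, y => run l (t.2 (t.1 y)) x y

/-- Composition of protocols. -/
def bind {X Y O O' : Type} : (l l' : List Bool) → Tr X Y O l → (O → Tr X Y O' l') →
    Tr X Y O' (l ++ l')
  | [], _, o, f => f o
  | true :: l, l', t, f => (t.1, fun b => bind l l' (t.2 b) f)
  | false :: l, l', t, f => (t.1, fun b => bind l l' (t.2 b) f)

theorem run_bind {X Y O O' : Type} (l l' : List Bool) (t : Tr X Y O l) (f : O → Tr X Y O' l')
    (x : X) (y : Y) : run (l ++ l') (bind l l' t f) x y = run l' (f (run l t x y)) x y := by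
  induction l with
  | nil => rfl
  | cons b l ih =>
    cases b with
    | true => exact ih _
    | false => exact ih _

variable {X Y : Type}

/-- The isometry of the simulation: `|h⟩ ↦ |b(h), h⟩ ⊗ |b(h)⟩`. -/
noncomputable def copyV {H : Type} [DecidableEq H] (b : H → Bool) : Matrix ((Bool × H) × Bool) H ℂ :=
  fun i h => if i = ((b h, h), b h) then 1 else 0

theorem copyV_isom {H : Type} [Fintype H] [DecidableEq H] (b : H → Bool) :
    (copyV b)ᴴ * copyV b = 1 := by
  ext h h'
  simp only [Matrix.mul_apply, conjTranspose_apply, copyV, one_apply]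
  rw [Finset.sum_eq_single ((b h, h), b h)]
  · by_cases e : h = h'
    · subst e; simp
    · have : ((b h, h), b h) ≠ ((b h', h'), b h') := by
        intro hh
        simp only [Prod.mk.injEq] at hh
        exact e hh.1.2
      simp [this, e]
  · intro i _ hi
    simp [hi]
  · intro hh
    simp at hh

/-- The projector on the registers whose classical content yields the output `z`. -/
noncomputable def proj {H : Type} [DecidableEq H] (o : H → Bool) (z : Bool) : Matrix H H ℂ :=
  Matrix.diagonal fun h => if o h = z then 1 else 0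

theorem proj_psd {H : Type} [Fintype H] [DecidableEq H] (o : H → Bool) (z : Bool) :
    (proj o z).PosSemidef := by
  refine Matrix.PosSemidef.diagonal fun h => ?_
  simp only [Pi.zero_apply]
  split_ifs <;> simp

theorem proj_add {H : Type} [Fintype H] [DecidableEq H] (o : H → Bool) :
    proj o false + proj o true = 1 := by
  unfold proj
  rw [Matrix.diagonal_add, ← Matrix.diagonal_one]
  congr 1
  funext h
  rcases o h <;> simp

/-- The quantum simulation of a family of classical protocols: both players hold the register `H`. -/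
noncomputable def sim : (l : List Bool) → (H : Type) → Fintype H → DecidableEq H →
    (H → Tr X Y Bool l) → QProt X Y H H
  | [], _, i1, i2, T =>
      @QProt.done X Y _ _ i1 i2 i1 i2 (fun _ z => proj T z) (fun _ z => proj T z)
        (fun _ => ⟨proj_psd _ _, proj_psd _ _, proj_add _⟩)
        (fun _ => ⟨proj_psd _ _, proj_psd _ _, proj_add _⟩)
  | true :: l, H, _, _, T =>
      .alice (fun x => copyV fun h => (T h).1 x) (fun _ => copyV_isom _)
        (sim l (Bool × H) inferInstance inferInstance fun bh => (T bh.2).2 bh.1)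
  | false :: l, H, _, _, T =>
      .bob (fun y => copyV fun h => (T h).1 y) (fun _ => copyV_isom _)
        (sim l (Bool × H) inferInstance inferInstance fun bh => (T bh.2).2 bh.1)

theorem sim_cost (l : List Bool) : ∀ (H : Type) (i1 : Fintype H) (i2 : DecidableEq H)
    (T : H → Tr X Y Bool l), (sim l H i1 i2 T).cost = l.length := by
  induction l with
  | nil => intro H i1 i2 T; rfl
  | cons b l ih =>
    intro H i1 i2 T
    cases b with
    | true =>
      simp only [sim, QProt.cost, List.length_cons]
      rw [ih]; omega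
    | false =>
      simp only [sim, QProt.cost, List.length_cons]
      rw [ih]; omega

theorem sum_step {H : Type} [Fintype H] (c : H → Bool) (d : H → ℂ) (g : Bool → H → Bool)
    (z : Bool) :
    (∑ bh : Bool × H, if g bh.1 bh.2 = z then ‖(if bh.1 = c bh.2 then d bh.2 else 0 : ℂ)‖ ^ 2 else 0)
      = ∑ h, if g (c h) h = z then ‖d h‖ ^ 2 else 0 := by
  rw [Fintype.sum_prod_type_right]
  refine Finset.sum_congr rfl fun h _ => ?_
  rw [Finset.sum_eq_single (c h)]
  · simp
  · intro b _ hb
    simp [hb]
  · simp

theorem step_eq {H : Type} [Fintype H] [DecidableEq H] (c : H → Bool) (d : H → ℂ) :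
    (fun (a : Bool × H) (cb : Bool × H) => (copyV c * Matrix.diagonal d) (a, cb.1) cb.2)
      = Matrix.diagonal fun bh : Bool × H => if bh.1 = c bh.2 then d bh.2 else 0 := by
  ext ⟨b, h⟩ ⟨b', h'⟩
  rw [Matrix.mul_diagonal, Matrix.diagonal_apply]
  simp only [copyV, Prod.mk.injEq]
  by_cases e : (b = b' ∧ h = h')
  · obtain ⟨rfl, rfl⟩ := e
    by_cases e2 : b = c h
    · simp [e2]
    · simp [e2]
  · rw [if_neg e, if_neg, zero_mul]
    rintro ⟨⟨h1, h2⟩, h3⟩
    exact e ⟨h1.trans h3.symm, h2⟩

theorem step_eq' {H : Type} [Fintype H] [DecidableEq H] (c : H → Bool) (d : H → ℂ) :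
    (fun (ca : Bool × H) (b : Bool × H) => (Matrix.diagonal d * (copyV c)ᵀ) ca.2 (b, ca.1))
      = Matrix.diagonal fun bh : Bool × H => if bh.1 = c bh.2 then d bh.2 else 0 := by
  ext ⟨b, h⟩ ⟨b', h'⟩
  rw [Matrix.diagonal_mul, Matrix.diagonal_apply]
  simp only [copyV, Prod.mk.injEq, Matrix.transpose_apply]
  by_cases e : (b = b' ∧ h = h')
  · obtain ⟨rfl, rfl⟩ := e
    by_cases e2 : b = c h
    · simp [e2]
    · simp [e2]
  · rw [if_neg e, if_neg, mul_zero]
    rintro ⟨⟨h1, h2⟩, h3⟩
    exact e ⟨h3.trans h1.symm, h2.symm⟩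

theorem trace_proj {H : Type} [Fintype H] [DecidableEq H] (o : H → Bool) (z : Bool) (d : H → ℂ) :
    (trace ((Matrix.diagonal d)ᴴ * proj o z * Matrix.diagonal d * (proj o z)ᵀ)).re =
      ∑ h, if o h = z then ‖d h‖ ^ 2 else 0 := by
  unfold proj
  rw [Matrix.diagonal_conjTranspose, Matrix.diagonal_mul_diagonal, Matrix.diagonal_mul_diagonal,
    Matrix.diagonal_transpose, Matrix.diagonal_mul_diagonal, Matrix.trace_diagonal, Complex.re_sum]
  refine Finset.sum_congr rfl fun h _ => ?_
  by_cases e : o h = z
  · rw [if_pos e, if_pos e]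
    simp only [Pi.star_apply, mul_one, RCLike.star_def]
    rw [mul_comm, Complex.mul_conj, Complex.ofReal_re, Complex.normSq_eq_norm_sq]
  · rw [if_neg e, if_neg e]
    simp

theorem sim_prob (l : List Bool) : ∀ (H : Type) (i1 : Fintype H) (i2 : DecidableEq H)
    (T : H → Tr X Y Bool l) (x : X) (y : Y) (d : H → ℂ) (z : Bool),
    (sim l H i1 i2 T).prob x y (Matrix.diagonal d) z =
      ∑ h, if run l (T h) x y = z then ‖d h‖ ^ 2 else 0 := by
  induction l with
  | nil =>
    intro H i1 i2 T x y d z
    exact trace_proj (T : H → Bool) z d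
  | cons b l ih =>
    intro H i1 i2 T x y d z
    cases b with
    | true =>
      simp only [sim, QProt.prob]
      rw [step_eq, ih]
      exact sum_step (fun h => (T h).1 x) d (fun b h => run l ((T h).2 b) x y) z
    | false =>
      simp only [sim, QProt.prob]
      rw [step_eq', ih]
      exact sum_step (fun h => (T h).1 y) d (fun b h => run l ((T h).2 b) x y) z

/-- **Simulation.** If a public-coin classical protocol with `l.length` bits computes `F` with
probability at least `2/3` on every input, then `Qstar F ≤ l.length`. -/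
theorem Qstar_le (F : X → Y → Bool) (l : List Bool) (R : Type) [Fintype R] [Nonempty R]
    (T : R → Tr X Y Bool l)
    (h : ∀ x y, 2 * Fintype.card R ≤
      3 * (Finset.univ.filter fun r => run l (T r) x y = F x y).card) : Qstar F ≤ l.length := by
  classical
  have hR : (0 : ℝ) < Fintype.card R := by exact_mod_cast Fintype.card_pos
  refine Nat.sInf_le ⟨R, R, inferInstance, inferInstance,
    Matrix.diagonal fun _ => ((Real.sqrt (Fintype.card R))⁻¹ : ℝ), sim l R inferInstance inferInstance T,
    ?_, sim_cost _ _ _ _ _, ?_⟩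
  · have e1 : ∀ a : R, ∑ b, ‖(Matrix.diagonal fun _ : R => (((Real.sqrt (Fintype.card R))⁻¹ : ℝ) : ℂ)) a b‖ ^ 2
        = ((Fintype.card R : ℝ))⁻¹ := by
      intro a
      rw [Finset.sum_eq_single a]
      · rw [Matrix.diagonal_apply_eq, Complex.norm_real, Real.norm_eq_abs, sq_abs, inv_pow,
          Real.sq_sqrt hR.le]
      · intro b _ hb
        rw [Matrix.diagonal_apply_ne _ (Ne.symm hb)]
        simp
      · simp
    rw [Finset.sum_congr rfl fun a _ => e1 a, Finset.sum_const, Finset.card_univ, nsmul_eq_mul,
      mul_inv_cancel₀ hR.ne']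
  · intro x y
    rw [sim_prob]
    have e2 : ∀ r : R, (if run l (T r) x y = F x y then
        ‖(((Real.sqrt (Fintype.card R))⁻¹ : ℝ) : ℂ)‖ ^ 2 else 0)
        = if run l (T r) x y = F x y then ((Fintype.card R : ℝ))⁻¹ else 0 := by
      intro r
      rw [Complex.norm_real, Real.norm_eq_abs, sq_abs, inv_pow, Real.sq_sqrt hR.le]
    rw [Finset.sum_congr rfl fun r _ => e2 r, ← Finset.sum_filter, Finset.sum_const, nsmul_eq_mul]
    have h1 : (2 : ℝ) * Fintype.card R ≤
        3 * (Finset.univ.filter fun r => run l (T r) x y = F x y).card := by exact_mod_cast h x y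
    rw [← div_eq_mul_inv, div_le_div_iff₀ (by norm_num) hR]
    linarith

end Pool.Agent.K1H75.AndQ
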